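import Mathlib
import Pool.Agent.Helper413.Gal.Trans

set_option autoImplicit false

open CategoryTheory AlgebraicGeometry MvPolynomial
open Pool.Agent.Helper226 Pool.Agent.Helper413.Gal

namespace Pool.Agent.Results.MP_042496_ag.MovedComponent

/-- The Hilbert scheme of 66 points of affine 10-space has an irreducible component over the
algebraic numbers which is not fixed by the Galois group. It is the unique component `Z` through
the point of the explicit ideal `quadricIdeal ι` generated by 23 quadrics, `ι` a square root of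
`-1`, and its stabiliser in the Galois group consists of the automorphisms fixing `ι`. -/
theorem result :
    Nonempty (HilbertScheme ℚ (MvPolynomial (Fin 10) ℚ) 66) ∧
    (∃ ι : AlgebraicClosure ℚ, ι ^ 2 = -1) ∧
    ∀ (𝓗 : HilbertScheme ℚ (MvPolynomial (Fin 10) ℚ) 66) (ι : AlgebraicClosure ℚ), ι ^ 2 = -1 →
      ∃ f : PointsOver ℚ 𝓗.H 𝓗.s (AlgebraicClosure ℚ), idealK 𝓗 f = quadricIdeal ι ∧
        ∃ Z ∈ irreducibleComponents (bcH 𝓗 (AlgebraicClosure ℚ)),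
          (∀ Z' ∈ irreducibleComponents (bcH 𝓗 (AlgebraicClosure ℚ)), ptOf 𝓗 f ∈ Z' ↔ Z' = Z) ∧
          (∃ σ : AlgebraicClosure ℚ ≃ₐ[ℚ] AlgebraicClosure ℚ, galAct 𝓗 σ '' Z ≠ Z) ∧
          ∀ σ : AlgebraicClosure ℚ ≃ₐ[ℚ] AlgebraicClosure ℚ,
            galAct 𝓗 σ '' Z = Z ↔ σ ι = ι := by
  refine ⟨⟨HH⟩, exists_i, fun 𝓗 ι hι => ?_⟩
  refine ⟨fAny 𝓗 hι, idealK_fAny 𝓗 hι, ZAny 𝓗 hι, ZAny_mem 𝓗 hι, ?_, ?_, ?_⟩
  · intro Z' hZ'
    constructor
    · intro h
      exact ZAny_unique 𝓗 hι Z' hZ' h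
    · rintro rfl
      exact fAny_mem 𝓗 hι
  · obtain ⟨σ, hσ⟩ := exists_moving _ ι hι
    exact ⟨σ, fun h => hσ ((ZAny_fixed_iff 𝓗 hι σ).1 h)⟩
  · intro σ
    exact ZAny_fixed_iff 𝓗 hι σ

end Pool.Agent.Results.MP_042496_ag.MovedComponent
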